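import Pool.Agent.ZGO.StmtsB

/-! Squad ZGO, row FNK: elementary facts on shift modules. -/

set_option autoImplicit false

namespace Pool.Agent.ZGO.H20

theorem fnk : FnkStmt := by
  intro P _ ψ X _ θ ρ hS
  have h1 : ∀ n, {x | (⇑θ)^[n] x = 0}.Finite := by
    intro n
    induction n with
    | zero =>
      refine (Set.finite_singleton (0 : X)).subset fun x hx => ?_
      exact hx
    | succ n ih =>
      have h2 : {x | (⇑θ)^[n + 1] x = 0} = (⇑θ) ⁻¹' {y | (⇑θ)^[n] y = 0} := by
        ext x
        rfl
      rw [h2]
      refine Set.Finite.preimage' ih fun b _ => ?_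
      by_cases hb : ∃ x0, θ x0 = b
      · obtain ⟨x0, hx0⟩ := hb
        refine (hS.fin.image fun z => x0 + z).subset fun x hx => ?_
        have h3 : θ x = b := hx
        have h5 : θ (x - x0) = 0 := by rw [map_sub, h3, hx0, sub_self]
        exact ⟨x - x0, h5, add_sub_cancel x0 x⟩
      · have h4 : (⇑θ) ⁻¹' {b} = ∅ := by
          ext x
          constructor
          · intro hx
            exact hb ⟨x, hx⟩
          · intro hx
            exact hx.elim
        rw [h4]
        exact Set.finite_empty
  refine ⟨h1, ?_, ?_⟩
  · intro n
    induction n with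
    | zero =>
      intro g x
      rfl
    | succ n ih =>
      intro g x
      rw [Function.iterate_succ_apply (⇑θ) n (ρ ((⇑ψ)^[n + 1] g) x),
        Function.iterate_succ_apply' (⇑ψ) n g, hS.eqv, ih, Function.iterate_succ_apply]
  · intro x
    obtain ⟨n, hn⟩ := hS.nil x
    have hit : ∀ (i k : ℕ) (y : X), (⇑θ)^[i] (k • y) = k • (⇑θ)^[i] y := by
      intro i
      induction i with
      | zero =>
        intro k y
        rfl
      | succ i ih =>
        intro k y
        rw [Function.iterate_succ_apply, Function.iterate_succ_apply, map_nsmul, ih]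
    have hz : ∀ k : ℕ, (⇑θ)^[n] (k • x) = 0 := by
      intro k
      rw [hit, hn, nsmul_zero]
    by_contra hcon
    push Not at hcon
    refine Set.infinite_of_injective_forall_mem (f := fun k : ℕ => k • x) ?_ hz (h1 n)
    intro i j hij
    change i • x = j • x at hij
    rcases lt_trichotomy i j with h | h | h
    · exfalso
      refine hcon (j - i) (by omega) ?_
      rw [sub_nsmul x h.le, hij, add_neg_cancel]
    · exact h
    · exfalso
      refine hcon (i - j) (by omega) ?_
      rw [sub_nsmul x h.le, hij, add_neg_cancel]

end Pool.Agent.ZGO.H20
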