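import Pool.Agent.ZGO.StmtsA

/-! Squad ZGO, row LCS: commutators of the terms of the lower central series. -/

set_option autoImplicit false

namespace Pool.Agent.ZGO.H20

/-- the three subgroups lemma modulo a normal subgroup -/
theorem three {G : Type*} [Group G] (N A B C : Subgroup G) [N.Normal] (h1 : ⁅⁅B, C⁆, A⁆ ≤ N)
    (h2 : ⁅⁅C, A⁆, B⁆ ≤ N) : ⁅⁅A, B⁆, C⁆ ≤ N := by
  have key : ∀ D : Subgroup G, D ≤ N ↔ D.map (QuotientGroup.mk' N) = ⊥ := by
    intro D
    rw [Subgroup.map_eq_bot_iff, QuotientGroup.ker_mk']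
  rw [key, Subgroup.map_commutator, Subgroup.map_commutator] at h1 h2 ⊢
  exact Subgroup.commutator_commutator_eq_bot_of_rotate h1 h2

theorem lcs : LcsStmt := by
  intro G _ i j
  induction j generalizing i with
  | zero =>
    exact le_of_eq rfl
  | succ j ih =>
    rw [Subgroup.commutator_comm, Subgroup.lowerCentralSeries_succ]
    refine three _ _ _ _ ?_ ?_
    · rw [Subgroup.commutator_comm ⊤ ((⊤ : Subgroup G).lowerCentralSeries i),
        ← Subgroup.lowerCentralSeries_succ]
      refine le_trans (ih (i + 1)) (le_of_eq ?_)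
      congr 1
      omega
    · refine le_trans (Subgroup.commutator_mono (ih i) le_rfl) (le_of_eq ?_)
      rw [← Subgroup.lowerCentralSeries_succ]
      congr 1

end Pool.Agent.ZGO.H20
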